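import Pool.Agent.P8H28.OV.Fin

/-!
# The cycles on one explicit power decide the conjecture C

Let `W` be any Weil cohomology theory on a class of smooth projective varieties over a field of any
characteristic, and let `X` be a variety with a divisor for which the hard Lefschetz theorem is true
(this is known for all varieties for `ℓ`-adic cohomology, by Deligne). Let `num n` and `alg n` be the
numbers of the numerically independent and of the homologically independent cycles (of all codimensions)
on the power `X ^ (n + 1)`, and let `b` be the dimension of `H(X)`.

Theorem. All Künneth components of the diagonals of all products of copies of `X` are algebraic, or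
`num n / alg n` is small for ALL `n`: for all `L ≥ 1` and `n ≥ 1`

  `(L - C log (n + 2) / n) num n ≤ alg n`, `C = 3 L (L + 1) (2 L + 3) b ^ (2 L + 5)`,

and `num n / alg n ≤ 112 log (2 b) / log (n + 1)` for all `n ≥ 1`.

So the conjecture C for all powers of `X` follows, if one percent of the cycles on ONE power
`X ^ (n + 1)` with `log (n + 1) > 11200 log (2 b)` is numerically effective.

The proof. If the second alternative is false, then homological and numerical equivalence coincide on
`X × X`. The reason is that the external powers of a class on `X × X` which is numerically but not
homologically trivial give a chain of spaces of classes which are stable under all correspondences, and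
every step of the chain contributes to `alg n` at least `num n` minus an error term (the theorem
`EffectiveOnePercent` of the problem MP_5f0950_ag). The conjecture D for the square gives the Lefschetz
standard conjecture B for `X`, B passes to products, and it implies C.
-/

open CategoryTheory AlgebraicGeometry

universe u v

namespace Pool.Agent.Results.MP_4ca46c_ag.CyclesOnOnePower

open Pool.Agent.H914 Pool.Agent.H914.VarClass Pool.Agent.H914.VarClass.Obj
open Pool.Agent.P8H28.OV (FewEffective c_law)

variable {k : Type u} [Field k] {𝒱 : VarClass k} {ops : CycleOps 𝒱}

/-- **The cycles on one explicit power decide the conjecture of Künneth type.** -/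
theorem result (W : WeilCohomology.{u, v} ops) (X : 𝒱.Obj) (D : X.Cycles) (hD : X.IsCyc 1 D)
    (hHL : HardLefschetz W X D) :
    (∀ Z, IsProductOf {X} Z → KunnethStd W Z) ∨ FewEffective W X :=
  c_law W X hD hHL

end Pool.Agent.Results.MP_4ca46c_ag.CyclesOnOnePower
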