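import Pool.Agent.P8H25.CpG

/-!
# The standard conjecture of Künneth type and the pure part of the motives

Let `W` be any Weil cohomology theory, with coefficient field `K`, on a class of smooth projective
varieties over a field `k` closed under products (`ℓ`-adic cohomology over an algebraically closed
field, say). For a variety `Y` let `b(Y) = cohDim W Y` be the dimension of its whole cohomology, and
let `p(Y) = pureDim W Y` be the dimension of the largest direct summand of the motive `h(Y)`
(homological equivalence, coefficients in `K`) which is a direct sum of pure motives: the largest
number `∑_i rank e_i`, where `e_i` is an idempotent `K`-combination of correspondences of degree zero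
which kills `H^j(Y)` for all `j ≠ i`. The conjecture `C(Y)` holds if and only if `p(Y) = b(Y)`, that
is, if the whole motive is a sum of pure motives.

**Theorem.** Let `X_1, ..., X_n` be varieties with `b(X_i) ≤ B` for which the conjecture of Künneth
type is false, for example `X_i = X` for all `i`. Then for all varieties `Y`, for `Z` the product
`Y × X_1 × ... × X_n`,

  `p(Z) ≤ √(B / (2 (n + 1))) b(Z)`.

So if `C(X)` is false, then almost nothing of the motive of `Y × X^n` is a sum of pure motives, when
`n` is large, for all `Y`. In particular the degrees `i` for which the `i`-th Künneth component of the
diagonal of `Y × X^n` is algebraic contain almost nothing of the cohomology (`algebraicPart`). Hence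

* `C(X)` holds if and only if a positive share `p(X^n) ≥ δ b(X^n)` of the motives of infinitely many
  powers of `X` is a sum of pure motives;
* for each `δ` with `0 < δ ≤ 1`, for instance `δ = 1 / 100`, the conjecture for all varieties is
  equivalent to `p(Z) ≥ δ b(Z)` for all varieties `Z`: one percent of the conjecture implies all of it;
* it even suffices that `p(Z) ≥ f(dim Z) b(Z)` for all `Z` of large dimension, where `f(d) √d` tends
  to infinity.

No cycle is assumed to exist and nothing is assumed on numerical equivalence. `C(X)` is the statement
with coefficients in `K`. If the traces of the cycles on the groups `H^i(X)` are rational and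
independent of the theory, which is known for the `ℓ`-adic theories (Katz and Messing), it is
equivalent to the existence of cycles with rational coefficients which induce the Künneth projectors
of `X`, and one cycle works for all these theories (last part).

The proof. Let `R(Y)` be the algebra of the `K`-combinations of correspondences of degree zero, and
`D` the operator which is multiplication by `i` on `H^i(Y)`. Let `ε` be a primitive idempotent of
`R(Y)`. An element `z` of `ε R(Y) ε` is killed by a power of one irreducible polynomial on the image of
`ε`, so its characteristic polynomials on the groups `ε H^i(Y)` are powers of this polynomial, and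
its traces on them are proportional to their dimensions. So the supertraces satisfy
`str(D ε y ε) = c str(ε y ε)` for all `y` in `R(Y)` with a number `c` depending on `ε` (or the
supertraces `str(ε y ε)` are all zero, and then `c` is arbitrary). Since `D` is a derivation, the
partial traces, which are algebraic, show that this property passes from `ε` and `η` to `ε ⊗ η`, with
the constant `c + c'`. Now let `1 = ∑ ε_a` be a sum of orthogonal idempotents with this property,
`c_a` the constants, and `e` an idempotent in `R(Z)` which kills all degrees except `i`. For `q` the
sum of the `ε_a` with `c_a ≠ i` all the operators `q a`, `a` in `R(Z)` killing all degrees except `i`,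
have trace zero. So `q e` is nilpotent, `1 - q` is injective on the image of `e`, and the rank of `e`
is at most the sum of `dim ε_a H^i(Z)` over the `a` with `c_a = i`. Hence `p(Z)` is at most the
multiplicity of `0` in the family of all the differences `i - c_a`, with multiplicity
`dim ε_a H^i(Z)`. For a product of varieties this family consists of the sums of elements of the
families of the factors. If the family of `X` is constant, the `ε_a` are pure and `C(X)` holds. If
the families of the `X_i` are not constant, the inequality of Erdős, Littlewood and Offord, that is,
the theorem of Sperner, gives the bound.
-/

set_option autoImplicit false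

open CategoryTheory AlgebraicGeometry

universe u v

namespace Pool.Agent.Results.MP_4ca46c_ag.OnePercentLaw

open Pool.Agent.H914 VarClass Obj WeilCohomology Pool.Agent.N103.OC Pool.Agent.TH133.PW
  Pool.Agent.P8H25.Cp

/-- **One percent of the conjecture of Künneth type implies all of it.** -/
theorem result {k : Type u} [Field k] {𝒱 : VarClass k} {ops : CycleOps 𝒱}
    (W : WeilCohomology.{u, v} ops) :
    (∀ Y : 𝒱.Obj, IsGreatest (pureRanks (W.gr Y) (cycleOperators W Y Y.dim) (2 * Y.dim + 1))
      (pureDim W Y)) ∧
    (∀ Y : 𝒱.Obj, KunnethSpan W Y ↔ pureDim W Y = cohDim W Y) ∧
    (∀ Z : 𝒱.Obj, algebraicPart W Z ≤ pureDim W Z) ∧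
    ProductLaw W ∧
    (∀ X : 𝒱.Obj, ¬ KunnethSpan W X → ∀ n : ℕ,
      2 * (n + 1) * pureDim W (pw X (n + 1)) ^ 2 ≤
        cohDim W X * cohDim W (pw X (n + 1)) ^ 2) ∧
    PowerCriterion W ∧ ShareCriterion W ∧ RateCriterion W ∧ RationalForm W :=
  ⟨isGreatest_pure W, fun _ => ⟨pureDim_eq_of_kunneth, kunneth_of_pureDim_eq⟩,
    algebraicPart_le W, productLaw W,
    fun _ h n => powerLaw h n, powerCriterion W, shareCriterion W, rateCriterion W,
    rationalForm W⟩

end Pool.Agent.Results.MP_4ca46c_ag.OnePercentLaw
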