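import Pool.Agent.P8H28.KC.Main3

/-!
# MP_4ca46c_ag: one Künneth projector of one power decides the standard conjecture C

Let `X` be a smooth projective variety of dimension `e`, with a Weil cohomology whose Betti numbers
satisfy `b_i = b_(2e - i)`, `b_i ≤ b_(i+2)` for `i < e` (Poincaré duality and hard Lefschetz), and
`n ≥ 4`.  Let `s` be an odd number with `H^s(X) ≠ 0` (by duality there is one with `s ≤ e`, if the
odd cohomology is not zero), or `s = 0` if the odd cohomology is zero and `m` is even.  Let
`e + s ≤ m ≤ 2 n e - e - s` and `m ≠ n e`.  If the one Künneth projector `π^m` of the one power `X^n`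
is algebraic, then all Künneth projectors of `X` and of all powers of `X` are algebraic.

`Cycles K ι deg e` records the algebraic correspondences of degree zero on the powers of `X`, as
matrices for a basis `ι` of `H(X)` with degrees `deg`, with the properties which are used.

Proof.  The push-forward to `X × X` of the intersection of `π^m` with the diagonals of the last
`N = n - 1` pairs of factors is `E = ∑ (-1)^(m-i) a(m - i) π^i`, where `a(k)` is the Betti number
`b_k(X^N)`.  By a reflection argument `a(k) - a(k - 2)` is a sum of nonnegative terms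
`(b_j - b_(j')) (a'(k - j) - a'(k - j - 2))` for `k ≤ N e`, and it is positive for `N ≥ 3` if `k` is
even or `k ≥ s`: one term is positive.  So for `m ≤ N e` the eigenvalues of `E` on `H^i(X)`,
`i ≤ e`, are different from each other and from the other eigenvalues, the projectors `π^i`,
`i ≤ e`, are polynomials in `E`, and the others are their transposes.  For `N e < m < n e` the
eigenvalues of `E` on `H^i` and `H^j` agree only if `i + j = 2 (m - N e)`, and those of the
transpose of `E` only if `i + j = 4 e - 2 (m - N e)`.
-/

set_option autoImplicit false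

namespace Pool.Agent.Results.MP_4ca46c_ag.OneProjectorDecides

open Pool.Agent.P8H28.KC

/-- **One Künneth projector of one power decides conjecture C** for a variety and all its
powers. -/
theorem result {K : Type} [Field K] [CharZero K] {ι : Type} [Fintype ι] [DecidableEq ι]
    (deg : ι → ℕ) {e : ℕ} (C : Cycles K ι deg e) (hD : ∀ a, deg a ≤ 2 * e)
    (h0 : 0 < betti deg 0)
    (hsym : ∀ i, i ≤ 2 * e → betti deg i = betti deg (2 * e - i))
    (huni : ∀ i, i < e → betti deg i ≤ betti deg (i + 2))
    (n m : ℕ) (hn : 4 ≤ n) (hm : m ≠ n * e)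
    (hpar : (e ≤ m ∧ m + e ≤ 2 * (n * e) ∧ Even m ∧ ∀ a, Even (deg a)) ∨
      ∃ o, Odd (deg o) ∧ e + deg o ≤ m ∧ m + (e + deg o) ≤ 2 * (n * e)) :
    kunneth K deg n m ∈ C.pow n ↔
      (∀ i, proj K deg i ∈ C.alg) ∧ ∀ N i, kunneth K deg N i ∈ C.pow N := by
  obtain ⟨N, rfl⟩ : ∃ N, n = N + 1 := ⟨n - 1, by omega⟩
  obtain ⟨z, hz⟩ := Finset.card_pos.mp h0
  constructor
  · intro hk
    have h1 := main3 deg C hD hsym huni (Finset.mem_filter.mp hz).2 N m (by omega) hm hpar hk
    exact ⟨h1, fun M i => kunneth_mem deg C (2 * e) hD h1 M i⟩
  · exact fun h1 => h1.2 (N + 1) m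

end Pool.Agent.Results.MP_4ca46c_ag.OneProjectorDecides
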